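import Mathlib
import Pool.Agent.Q260.BC.Defs

/-! The upper broadcast number is not monotone under isometric subgraphs. -/

open Finset Pool.Agent.Q260.BC

namespace Pool.Agent.Results.MP_3951c0_co.IsometricFails

/-- vertices of the host graph -/
abbrev W := (Fin 4 × Bool) ⊕ Bool

/-- adjacency in the host graph -/
def adjR : W → W → Prop
  | Sum.inl (i, s), Sum.inl (i', s') => (s = s' ∧ i ≠ i') ∨ (i = i' ∧ s ≠ s')
  | Sum.inl (_, s), Sum.inr t => s = t
  | Sum.inr t, Sum.inl (_, s) => s = t
  | Sum.inr _, Sum.inr _ => False

instance : DecidableRel adjR := fun x y => by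
  rcases x with ⟨i, s⟩ | t <;> rcases y with ⟨i', s'⟩ | t' <;> unfold adjR <;> infer_instance

/-- the host graph `H` -/
def host : SimpleGraph W where
  Adj := adjR
  symm := ⟨by decide⟩
  loopless := ⟨by decide⟩

instance : DecidableRel host.Adj := inferInstanceAs (DecidableRel adjR)

lemma near2 : ∀ x y : W, (∀ s, ¬ (x = Sum.inr s ∧ y = Sum.inr (!s))) →
    ∃ w, (x = w ∨ host.Adj x w) ∧ (w = y ∨ host.Adj w y) := by
  rintro (⟨i, s⟩ | s) (⟨i', s'⟩ | s') h
  · exact ⟨Sum.inl (i, s'), by revert i i' s s'; decide, by revert i i' s s'; decide⟩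
  · exact ⟨Sum.inl (i, s'), by revert i s s'; decide, by revert i s s'; decide⟩
  · exact ⟨Sum.inl (i', s), by revert i' s s'; decide, by revert i' s s'; decide⟩
  · refine ⟨Sum.inr s, by simp, ?_⟩
    revert s s'
    decide

lemma reach (x y : W) (h : ∃ w, (x = w ∨ host.Adj x w) ∧ (w = y ∨ host.Adj w y)) :
    host.Reachable x y := by
  obtain ⟨w, h1, h2⟩ := h
  have h1' : host.Reachable x w := by
    rcases h1 with rfl | h1
    · exact SimpleGraph.Reachable.refl _
    · exact h1.reachable
  have h2' : host.Reachable w y := by
    rcases h2 with rfl | h2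
    · exact SimpleGraph.Reachable.refl _
    · exact h2.reachable
  exact h1'.trans h2'

lemma conn : host.Connected := by
  have key : ∀ x : W, host.Reachable x (Sum.inl (0, false)) := by
    intro x
    apply reach
    apply near2
    intro s h
    exact absurd h.2 (by simp)
  have : Nonempty W := ⟨Sum.inl (0, false)⟩
  exact SimpleGraph.Connected.mk fun x y => (key x).trans (key y).symm

lemma dist_le_two {V : Type*} {G : SimpleGraph V} (hG : G.Connected) {x y : V}
    (h : ∃ w, (x = w ∨ G.Adj x w) ∧ (w = y ∨ G.Adj w y)) : G.dist x y ≤ 2 := by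
  obtain ⟨w, h1, h2⟩ := h
  have h1' := (dist_le_one_iff hG x w).2 h1
  have h2' := (dist_le_one_iff hG w y).2 h2
  have := hG.dist_triangle (u := x) (v := w) (w := y)
  omega

lemma dist_le_three (x y : W) : host.dist x y ≤ 3 := by
  have h1 : ∃ w, (x = w ∨ host.Adj x w) ∧ ∀ s, ¬ (w = Sum.inr s ∧ y = Sum.inr (!s)) := by
    rcases x with ⟨i, s⟩ | s
    · exact ⟨_, Or.inl rfl, by simp⟩
    · exact ⟨Sum.inl (0, s), by revert s; decide, by simp⟩
  obtain ⟨w, h1, h2⟩ := h1
  have h3 := dist_le_two conn (near2 w y h2)
  have h4 := (dist_le_one_iff conn x w).2 h1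
  have := conn.dist_triangle (u := x) (v := w) (w := y)
  omega

/-- the two cliques of size five -/
def side : W → Bool
  | Sum.inl (_, s) => s
  | Sum.inr s => s

lemma same_side : ∀ x y : W, side x = side y → x = y ∨ host.Adj x y := by
  rintro (⟨i, s⟩ | s) (⟨i', s'⟩ | s') h <;> simp only [side] at h <;> subst h <;> revert s
  · revert i i'; decide
  · revert i; decide
  · revert i'; decide
  · decide

lemma adj_inr : ∀ (s : Bool) (y : W), (Sum.inr s = y ∨ host.Adj (Sum.inr s) y) → side y = s := by
  rintro s (⟨i, s'⟩ | s') h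
  · rcases h with h | h
    · simp at h
    · exact h
  · rcases h with h | h
    · simpa [side] using h.symm
    · exact absurd h (by exact fun h => h)

lemma host_private {V : Type*} {G : SimpleGraph V} {f : V → ℕ}
    (hf : MinimalDominating G f) (v : V) (hv : 0 < f v) :
    ∃ u, (∀ w, w ≠ v → ¬ (0 < f w ∧ G.dist u w ≤ f w)) ∧
      G.dist u v ≤ f v ∧ (f v = 1 ∨ G.dist u v = f v) := by
  classical
  obtain ⟨h1, h2, h3⟩ := hf
  set g := Function.update f v (f v - 1) with hg
  have hgle : ∀ w, g w ≤ f w := by
    intro w
    by_cases hw : w = v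
    · subst hw; simp [hg]
    · simp [hg, hw]
  have hgb : IsBroadcast G g := fun w => by
    obtain ⟨u, hu⟩ := h1 w
    exact ⟨u, (hgle w).trans hu⟩
  have hne : g ≠ f := by
    intro h
    have := congrFun h v
    simp [hg] at this
    omega
  have hnd : ¬ Dominating G g := fun h => hne (h3 g hgb hgle h)
  unfold Dominating at hnd
  push Not at hnd
  obtain ⟨u, hu⟩ := hnd
  have hpriv : ∀ w, w ≠ v → ¬ (0 < f w ∧ G.dist u w ≤ f w) := by
    rintro w hw ⟨h4, h5⟩
    have := hu w
    simp only [hg, Function.update_of_ne hw] at this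
    have := this h4
    omega
  refine ⟨u, hpriv, ?_⟩
  obtain ⟨w, hw1, hw2⟩ := h2 u
  have hwv : w = v := by
    by_contra hwv
    exact hpriv w hwv ⟨hw1, hw2⟩
  subst hwv
  refine ⟨hw2, ?_⟩
  have := hu w
  simp only [hg, Function.update_self] at this
  omega

lemma host_bound {f : W → ℕ} (hf : MinimalDominating host f) : ∑ v, f v ≤ 3 := by
  classical
  have hub : ∀ v, f v ≤ 3 := fun v => by
    obtain ⟨u, hu⟩ := hf.1 v
    exact hu.trans (dist_le_three v u)
  by_cases hA : ∃ v, 0 < f v ∧ ∀ y, host.dist y v ≤ f v
  · obtain ⟨v, hv, hall⟩ := hA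
    have hz : ∀ w, w ≠ v → f w = 0 := by
      intro w hw
      by_contra h0
      obtain ⟨u, hu, _⟩ := host_private hf w (by omega)
      exact hu v (Ne.symm hw) ⟨hv, hall u⟩
    rw [Finset.sum_eq_single v (fun w _ hw => hz w hw) (by simp)]
    exact hub v
  · push Not at hA
    have hl : ∀ p, f (Sum.inl p) ≤ 1 := by
      intro p
      by_contra h
      obtain ⟨y, hy⟩ := hA (Sum.inl p) (by omega)
      have := dist_le_two conn (near2 y (Sum.inl p) (by simp))
      omega
    have hr : ∀ s, f (Sum.inr s) ≤ 2 := by
      intro s
      by_contra h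
      obtain ⟨y, hy⟩ := hA (Sum.inr s) (by omega)
      have := dist_le_three y (Sum.inr s)
      omega
    by_cases hB : ∃ s, f (Sum.inr s) = 2
    · obtain ⟨s, hs⟩ := hB
      have hpr : ∀ w, w ≠ Sum.inr s → 0 < f w → host.dist (Sum.inr (!s)) w ≤ f w ∧ f w = 1 := by
        intro w hw h0
        obtain ⟨u, hu, hu2, hu3⟩ := host_private hf w h0
        have hu' : u = Sum.inr (!s) := by
          by_contra hne
          apply hu (Sum.inr s) (Ne.symm hw)
          refine ⟨by omega, ?_⟩
          rw [hs]
          apply dist_le_two conn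
          apply near2
          rintro t ⟨h1, h2⟩
          apply hne
          rw [h1]
          simp only [Sum.inr.injEq] at h2
          rw [h2]; simp
        subst hu'
        refine ⟨hu2, ?_⟩
        rcases hu3 with h | h
        · exact h
        · rcases w with p | t
          · have := hl p; omega
          · have ht : t = !s := by
              have h5 : t ≠ s := fun h => hw (by rw [h])
              exact (by decide : ∀ t s : Bool, t ≠ s → t = !s) t s h5
            subst ht
            simp at h
            omega
      have huniq : ∀ w w', w ≠ Sum.inr s → w' ≠ Sum.inr s → 0 < f w → 0 < f w' → w = w' := by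
        intro w w' hw hw' h0 h0'
        by_contra hne
        obtain ⟨u, hu, hu2, hu3⟩ := host_private hf w h0
        have hu' : u = Sum.inr (!s) := by
          by_contra hne
          apply hu (Sum.inr s) (Ne.symm hw)
          refine ⟨by omega, ?_⟩
          rw [hs]
          apply dist_le_two conn
          apply near2
          rintro t ⟨h1, h2⟩
          apply hne
          rw [h1]
          simp only [Sum.inr.injEq] at h2
          rw [h2]; simp
        subst hu'
        exact hu w' (Ne.symm hne) ⟨h0', (hpr w' hw' h0').1⟩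
      rw [← Finset.sum_erase_add _ _ (Finset.mem_univ (Sum.inr s : W)), hs]
      suffices h : ∑ x ∈ Finset.univ.erase (Sum.inr s : W), f x ≤ 1 by omega
      by_cases hex : ∃ w, w ≠ Sum.inr s ∧ 0 < f w
      · obtain ⟨w, hw, h0⟩ := hex
        rw [Finset.sum_eq_single w]
        · exact (hpr w hw h0).2.le
        · intro b hb hbw
          by_contra hb0
          exact hbw (huniq b w (Finset.ne_of_mem_erase hb) hw (by omega) h0)
        · intro h
          exact absurd (Finset.mem_erase.2 ⟨hw, Finset.mem_univ w⟩) h
      · push Not at hex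
        rw [Finset.sum_eq_zero]
        · omega
        · intro b hb
          have := hex b (Finset.ne_of_mem_erase hb)
          omega
    · push Not at hB
      have h1 : ∀ v, f v ≤ 1 := by
        rintro (p | s)
        · exact hl p
        · have := hr s; have := hB s; omega
      have hmeet : ∀ s, ∃ w, 0 < f w ∧ side w = s := by
        intro s
        obtain ⟨w, hw, hw2⟩ := hf.2.1 (Sum.inr s)
        refine ⟨w, hw, adj_inr s w ?_⟩
        exact (dist_le_one_iff conn _ _).1 (hw2.trans (h1 w))
      have huniq : ∀ x y, 0 < f x → 0 < f y → side x = side y → x = y := by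
        intro x y hx hy hxy
        by_contra hne
        obtain ⟨u, hu, _⟩ := host_private hf x hx
        by_cases hus : side u = side y
        · apply hu y (Ne.symm hne)
          refine ⟨hy, ?_⟩
          have := (dist_le_one_iff conn u y).2 (same_side u y hus)
          omega
        · obtain ⟨w, hw, hws⟩ := hmeet (side u)
          apply hu w
          · intro h
            rw [h] at hws
            exact hus (hws.symm.trans hxy)
          · refine ⟨hw, ?_⟩
            have := (dist_le_one_iff conn u w).2 (same_side u w hws.symm)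
            omega
      have h2 : ∑ v, f v = (Finset.univ.filter fun v => 0 < f v).card := by
        rw [Finset.card_filter]
        refine Finset.sum_congr rfl fun v _ => ?_
        have := h1 v
        split_ifs <;> omega
      rw [h2]
      have h3 : (Finset.univ.filter fun v => 0 < f v).card ≤ (Finset.univ : Finset Bool).card := by
        apply Finset.card_le_card_of_injOn side (fun x _ => by simp)
        intro x hx y hy hxy
        simp only [Finset.coe_filter, Finset.mem_univ, true_and, Set.mem_ofPred_eq] at hx hy
        exact huniq x y hx hy hxy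
      simp at h3
      omega

/-- the isometric subgraph: the vertices `inl p` -/
def sub : host.Subgraph := (⊤ : host.Subgraph).induce (Set.range Sum.inl)

lemma sub_verts : sub.verts = Set.range Sum.inl := rfl

lemma sub_adj (x y : W) : sub.Adj x y ↔ x ∈ Set.range (Sum.inl : _ → W) ∧
    y ∈ Set.range (Sum.inl : _ → W) ∧ host.Adj x y := by
  simp [sub]

/-- name of the vertices of the subgraph -/
def em (p : Fin 4 × Bool) : sub.verts := ⟨Sum.inl p, ⟨p, rfl⟩⟩

lemma em_surj (x : sub.verts) : ∃ p, em p = x := by
  obtain ⟨x, p, hp⟩ := x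
  exact ⟨p, by simp [em, hp]⟩

lemma em_inj : Function.Injective em := by
  intro p q h
  have h1 := congrArg Subtype.val h
  exact Sum.inl_injective h1

lemma coe_adj (p q : Fin 4 × Bool) : sub.coe.Adj (em p) (em q) ↔
    host.Adj (Sum.inl p) (Sum.inl q) := by
  rw [SimpleGraph.Subgraph.coe_adj, sub_adj]
  simp [em]

lemma near2_coe (p q : Fin 4 × Bool) :
    ∃ w, (em p = w ∨ sub.coe.Adj (em p) w) ∧ (w = em q ∨ sub.coe.Adj w (em q)) := by
  refine ⟨em (p.1, q.2), ?_, ?_⟩
  · rw [coe_adj, em_inj.eq_iff]
    revert p q; decide
  · rw [coe_adj, em_inj.eq_iff]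
    revert p q; decide

lemma conn_coe : sub.coe.Connected := by
  have key : ∀ x : sub.verts, sub.coe.Reachable x (em (0, false)) := by
    intro x
    obtain ⟨p, rfl⟩ := em_surj x
    obtain ⟨w, h1, h2⟩ := near2_coe p (0, false)
    have h1' : sub.coe.Reachable (em p) w := by
      rcases h1 with rfl | h1
      · exact SimpleGraph.Reachable.refl _
      · exact h1.reachable
    have h2' : sub.coe.Reachable w (em (0, false)) := by
      rcases h2 with rfl | h2
      · exact SimpleGraph.Reachable.refl _
      · exact h2.reachable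
    exact h1'.trans h2'
  have : Nonempty sub.verts := ⟨em (0, false)⟩
  exact SimpleGraph.Connected.mk fun x y => (key x).trans (key y).symm

lemma isometric (u v : sub.verts) : sub.coe.dist u v = host.dist u v := by
  obtain ⟨p, rfl⟩ := em_surj u
  obtain ⟨q, rfl⟩ := em_surj v
  by_cases hpq : p = q
  · subst hpq; simp
  · by_cases hadj : host.Adj (Sum.inl p) (Sum.inl q)
    · rw [SimpleGraph.dist_eq_one_iff_adj.2 ((coe_adj p q).2 hadj)]
      exact (SimpleGraph.dist_eq_one_iff_adj.2 hadj).symm
    · have h1 : sub.coe.dist (em p) (em q) ≤ 2 := dist_le_two conn_coe (near2_coe p q)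
      have h2 : ¬ sub.coe.dist (em p) (em q) ≤ 1 := by
        rw [dist_le_one_iff conn_coe, coe_adj, em_inj.eq_iff]
        tauto
      have h3 : host.dist (em p) (em q) ≤ 2 := dist_le_two conn (near2 _ _ (by simp [em]))
      have h4 : ¬ host.dist (em p) (em q) ≤ 1 := by
        rw [dist_le_one_iff conn]
        simp only [em, Sum.inl.injEq]
        tauto
      omega

/-- broadcast on the subgraph -/
noncomputable def bc : sub.verts → ℕ := fun x => if side x.1 = false then 1 else 0

lemma bc_em (p : Fin 4 × Bool) : bc (em p) = if p.2 = false then 1 else 0 := rfl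

lemma bc_md : MinimalDominating sub.coe bc := by
  refine ⟨?_, ?_, ?_⟩
  · intro v
    obtain ⟨p, rfl⟩ := em_surj v
    refine ⟨em (p.1, !p.2), ?_⟩
    have h1 : sub.coe.Adj (em p) (em (p.1, !p.2)) := by
      rw [coe_adj]; revert p; decide
    rw [SimpleGraph.dist_eq_one_iff_adj.2 h1, bc_em]
    split_ifs <;> simp
  · intro u
    obtain ⟨p, rfl⟩ := em_surj u
    refine ⟨em (p.1, false), by simp [bc_em], ?_⟩
    rw [bc_em]
    simp only [if_true]
    rw [dist_le_one_iff conn_coe, coe_adj, em_inj.eq_iff]
    revert p; decide
  · intro g _ hle hdom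
    by_contra hne
    obtain ⟨v, hv⟩ : ∃ v, g v < bc v := by
      by_contra h
      push Not at h
      exact hne (funext fun v => le_antisymm (hle v) (h v))
    obtain ⟨⟨i, s⟩, rfl⟩ := em_surj v
    rw [bc_em] at hv
    cases s with
    | true => simp at hv
    | false =>
      simp only [if_true] at hv
      obtain ⟨w, hw0, hw⟩ := hdom (em (i, true))
      have hlew := hle w
      obtain ⟨⟨i', s'⟩, rfl⟩ := em_surj w
      rw [bc_em] at hlew
      cases s' with
      | true => simp at hlew; omega
      | false =>
        simp only [if_true] at hlew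
        have h1 : sub.coe.dist (em (i, true)) (em (i', false)) ≤ 1 := hw.trans hlew
        rw [dist_le_one_iff conn_coe, coe_adj, em_inj.eq_iff] at h1
        have h2 : i = i' := (by decide : ∀ i i' : Fin 4, (((i, true) : Fin 4 × Bool) = (i', false) ∨
          host.Adj (Sum.inl (i, true)) (Sum.inl (i', false))) → i = i') i i' h1
        subst h2
        omega

open Classical in
/-- There is a connected graph `H` with a connected isometric subgraph `G` such that
`Γ_b(G) > Γ_b(H)`. -/
theorem result : ∃ (V : Type) (_ : Fintype V) (H : SimpleGraph V) (G : H.Subgraph),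
    H.Connected ∧ G.coe.Connected ∧ (∀ u v : G.verts, G.coe.dist u v = H.dist u v) ∧
    upperBroadcast H < upperBroadcast G.coe := by
  refine ⟨W, inferInstance, host, sub, conn, conn_coe, isometric, ?_⟩
  have h1 : upperBroadcast host ≤ 3 := by
    apply csSup_le'
    rintro w ⟨f, hf, rfl⟩
    exact host_bound hf
  have h2 : 4 ≤ upperBroadcast sub.coe := by
    refine le_trans ?_ (le_upperBroadcast conn_coe bc_md)
    have hb : Function.Bijective em := ⟨em_inj, em_surj⟩
    rw [← hb.sum_comp bc]
    simp only [bc_em]
    decide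
  omega

end Pool.Agent.Results.MP_3951c0_co.IsometricFails
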